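import Pool.Agent.H773.CS.Stm

open Finset Filter Topology

namespace Pool.Agent.H773.CS

theorem t_lb (hA : S_labA) (h3 : S_three) (hc : S_c) (hb : S_b) (hcls : S_cls) : S_lb := by
  intro P q hP hP4 τ
  have hPpos : (0:ℝ) < P := by exact_mod_cast hP.out.pos
  have hP1 : (10000:ℝ) ≤ P := by exact_mod_cast hP4
  set B : ℝ := (Set.ncard {b : Blk P | LabOK (fun r => τ (bvar b r))} : ℝ) with hB
  by_contra hcon
  push Not at hcon
  have hP4pos : (0:ℝ) < (P:ℝ)^4 := by positivity
  -- total
  have hBtot : B ≤ 64 * (P:ℝ)^4 := by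
    have := hc P q τ none
    have hnn : 0 ≤ 8 * (P:ℝ) * ∑ y : ZMod P, (HH (cls τ none) y : ℝ) *
      (2 * (cls τ none).card - HH (cls τ none) y) := by
      apply mul_nonneg (by positivity)
      apply Finset.sum_nonneg
      intro y _
      apply mul_nonneg (by positivity)
      have : HH (cls τ none) y ≤ 2 * (cls τ none).card := by
        unfold HH
        calc _ ≤ ((cls τ none) ×ˢ (univ : Finset Bool)).card := by
              apply Finset.card_le_card_of_injOn (fun t => ((t.1, t.2.1), t.2.2))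
              · intro t ht
                simp only [Finset.coe_filter, Finset.mem_univ, true_and, Set.mem_ofPred_eq] at ht
                simp [ht.1]
              · rintro ⟨a, b, c⟩ _ ⟨a', b', c'⟩ _ h
                simp only [Prod.mk.injEq] at h
                simp [h.1.1, h.1.2, h.2]
          _ = 2 * (cls τ none).card := by
              rw [Finset.card_product]; simp [mul_comm]
      have h2 : (HH (cls τ none) y : ℝ) ≤ 2 * (cls τ none).card := by exact_mod_cast this
      linarith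
    linarith
  obtain ⟨d, hd⟩ := h3 P q τ
  have hcd := hc P q τ d
  set ep : ℝ := 1 - B / (64 * (P:ℝ)^4) with hep
  have hBe : B = (1 - ep) * (64 * (P:ℝ)^4) := by
    rw [hep]; field_simp; ring
  have hep0 : 0 ≤ ep := by
    rw [hep]
    have : B / (64 * (P:ℝ)^4) ≤ 1 := by
      rw [div_le_one (by positivity)]; exact hBtot
    linarith
  have hep1 : ep ≤ 1/5000 := by
    by_contra hlt
    push Not at hlt
    have : B < (1 - 1/5000) * (64 * (P:ℝ)^4) := by
      rw [hBe]
      apply mul_lt_mul_of_pos_right _ (by positivity)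
      linarith
    linarith
  have hn : (3/5 : ℝ) * P ≤ (cls τ d).card := by
    have h1 : (1 - 1/5000) * (64 * (P:ℝ)^4) ≤ 3 * (32 * (P:ℝ)^3) * ((cls τ d).card : ℝ) :=
      le_trans (le_of_lt hcon) hd
    have h2 : (3 * (32 * (P:ℝ)^3)) * ((3/5 : ℝ) * P) ≤ (3 * (32 * (P:ℝ)^3)) * ((cls τ d).card : ℝ) := by
      refine le_trans ?_ h1
      have : (3 * (32 * (P:ℝ)^3)) * ((3/5 : ℝ) * P) = (288/5) * (P:ℝ)^4 := by ring
      rw [this]
      nlinarith
    exact le_of_mul_le_mul_left h2 (by positivity)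
  have hsum : ∑ y : ZMod P, (HH (cls τ d) y : ℝ) * (2 * (cls τ d).card - HH (cls τ d) y) ≤
      8 * ep * (P:ℝ)^3 := by
    have h1 : (8 * (P:ℝ)) * ∑ y : ZMod P, (HH (cls τ d) y : ℝ) *
        (2 * (cls τ d).card - HH (cls τ d) y) ≤ (8 * (P:ℝ)) * (8 * ep * (P:ℝ)^3) := by
      refine le_trans hcd ?_
      rw [← hB, hBe]
      apply le_of_eq; ring
    exact le_of_mul_le_mul_left h1 (by positivity)
  have hmain := hcls P hP4 (cls τ d) ep hep0 hep1 hn hsum
  have hsmall : 2 * (P:ℝ) - (cls τ d).card ≤ 9/1000 * P := by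
    have : 45 * ep * P ≤ 9/1000 * P := by
      apply mul_le_mul_of_nonneg_right _ hPpos.le
      linarith
    linarith
  have hBlow : (1 - 1/5000) * (64 * (P:ℝ)^4) < B := hcon
  cases d with
  | some c =>
    have h1 := hb P q τ c
    rw [← hB] at h1
    have h2 : 3 * (32 * (P:ℝ)^3) * (2 * (P:ℝ) - ((cls τ (some c)).card : ℝ)) ≤
        3 * (32 * (P:ℝ)^3) * (9/1000 * P) := by
      apply mul_le_mul_of_nonneg_left hsmall (by positivity)
    have h3 : 3 * (32 * (P:ℝ)^3) * (9/1000 * P) = (108/125) * (P:ℝ)^4 := by ring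
    nlinarith
  | none =>
    have h1 := hA P q (by
      rcases hP.out.eq_two_or_odd with h | h
      · omega
      · exact h) τ
    rw [← hB] at h1
    have hcomp : (Set.ncard {v : ZMod P × Bool | ¬ ∃ t, τ v = .A t} : ℝ) ≤
        2 * (P:ℝ) - ((cls τ (none : Option (Fin q))).card : ℝ) := by
      classical
      have hset : {v : ZMod P × Bool | ¬ ∃ t, τ v = .A t} =
          ↑((cls τ (none : Option (Fin q)))ᶜ) := by
        ext v
        simp only [Set.mem_ofPred_eq, Finset.coe_compl, Set.mem_compl_iff, Finset.mem_coe]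
        rw [not_iff_not]
        unfold cls
        simp only [Finset.mem_filter, Finset.mem_univ, true_and]
        constructor
        · rintro ⟨t, ht⟩
          rw [ht]
          exact ⟨Or.inl ⟨t, rfl⟩, rfl⟩
        · rintro ⟨h | ⟨c, hc'⟩, h'⟩
          · exact h
          · rw [hc'] at h'
            simp [coarse] at h'
      rw [hset, Set.ncard_coe_finset, Finset.card_compl]
      have hcard : Fintype.card (ZMod P × Bool) = 2 * P := by
        rw [Fintype.card_prod, ZMod.card, Fintype.card_bool, mul_comm]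
      have hle : (cls τ (none : Option (Fin q))).card ≤ Fintype.card (ZMod P × Bool) :=
        Finset.card_le_univ _
      rw [Nat.cast_sub hle, hcard]
      push_cast
      exact le_refl _
    have h2 : (17 * (32 * (P:ℝ)^3)) * (Set.ncard {v : ZMod P × Bool | ¬ ∃ t, τ v = .A t} : ℝ) ≤
        (17 * (32 * (P:ℝ)^3)) * (9/1000 * P) := by
      apply mul_le_mul_of_nonneg_left _ (by positivity)
      linarith
    have h3 : (17 * (32 * (P:ℝ)^3)) * (9/1000 * P) = (612/125) * (P:ℝ)^4 := by ring
    nlinarith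

theorem t_near (hmk : S_mk) (hnlp : S_nlp) (hnval : S_nval) : S_near := by
  obtain ⟨n₀, h0⟩ := hnval
  refine ⟨n₀, ?_⟩
  intro n q hn c hc
  obtain ⟨P₀, hP₀⟩ := h0 n hn
  -- choose a large prime
  obtain ⟨M, hM⟩ := exists_nat_gt (((n:ℝ)+1) / (1 - c))
  obtain ⟨P, hPge, hPp⟩ := Nat.exists_infinite_primes (P₀ + M + 3)
  haveI : Fact P.Prime := ⟨hPp⟩
  have hP3 : 3 ≤ P := by omega
  have hodd : P % 2 = 1 := by
    rcases hPp.eq_two_or_odd with h | h
    · omega
    · exact h
  have hPpos : (0:ℝ) < P := by exact_mod_cast hPp.pos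
  obtain ⟨hcard, hval⟩ := hP₀ P q (by omega)
  haveI : Nonempty (JJ P n) := Fintype.card_pos_iff.mp hcard
  haveI : Nonempty (Sym q) := ⟨.bit false⟩
  obtain ⟨x, z, hx0, hz0, hx1, hz1, hmarg, hobj⟩ := hnlp P q n hodd hP3
  have hmem : ∀ j : JJ P n, fJ q j ∈ FF n q := by
    intro j
    unfold fJ
    split_ifs
    · exact Or.inl ⟨_, _, rfl⟩
    · exact Or.inl ⟨_, _, rfl⟩
    · exact Or.inr rfl
  obtain ⟨I, hI1, hI2⟩ := hmk (F := FF n q) (ZMod P × Bool) (JJ P n) (fun j => eJ j) (fun j => fJ q j)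
    hmem
  refine ⟨I, ?_, ?_⟩
  · have h1 : 1 - ((n:ℝ)+1)/P ≤ lpVal I := by
      refine hI2 _ x z hx0 hz0 hx1 hz1 ?_ ?_
      · intro j i s
        exact hmarg j i s
      · convert hobj using 1
    have h2 : ((n:ℝ)+1)/P ≤ 1 - c := by
      rw [div_le_iff₀ hPpos]
      have h3 : ((n:ℝ)+1) / (1 - c) < P := by
        refine lt_of_lt_of_le hM ?_
        exact_mod_cast (by omega : M ≤ P)
      rw [div_lt_iff₀ (by linarith)] at h3
      linarith
    linarith
  · apply hI1
    intro τ
    convert hval τ using 1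

theorem t_final (hex : S_exact) (hnear : S_near) (hmk : S_mk) : S_final := by
  obtain ⟨n, hn⟩ := hnear
  set q : ℕ := 10 * (10 * (n+1))^2 with hq
  have hval0 : ∀ I : Inst (FF n q), 0 ≤ val I := by
    intro I
    unfold val
    apply Real.iSup_nonneg
    intro τ
    unfold valAt
    positivity
  -- the family is not all-zero
  have hnz : ¬ (∀ f ∈ FF n q, ∀ a, f a = false) := by
    intro h
    have := h (fU n q) (Or.inr rfl) (fun _ => .bit false)
    unfold fU at this
    have h2 : SatU n (fun _ => (Sym.bit false : Sym q)) := ⟨false, rfl⟩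
    simp [h2] at this
  have hts : ∀ c, thetaStar (FF n q) c = sInf {t | ∃ I : Inst (FF n q), c ≤ lpVal I ∧ t = val I} := by
    intro c
    unfold thetaStar
    rw [if_neg hnz]
  have hbdd : ∀ c : ℝ, BddBelow {t | ∃ I : Inst (FF n q), c ≤ lpVal I ∧ t = val I} := by
    intro c
    refine ⟨0, ?_⟩
    rintro t ⟨I, _, rfl⟩
    exact hval0 I
  -- an instance of LP value one
  have hone : ∃ I : Inst (FF n q), 1 ≤ lpVal I := by
    haveI : Nonempty (Sym q) := ⟨.bit false⟩
    obtain ⟨I, _, hI2⟩ := hmk (F := FF n q) (Fin ((n+1)*10)) Unit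
      (fun _ => Function.Embedding.refl _) (fun _ => fU n q) (fun _ => Or.inr rfl)
    refine ⟨I, ?_⟩
    refine hI2 1 (fun _ s => if s = .bit false then 1 else 0)
      (fun _ a => if a = (fun _ => .bit false) then 1 else 0) ?_ ?_ ?_ ?_ ?_ ?_
    · intro v s; split_ifs <;> norm_num
    · intro v s; split_ifs <;> norm_num
    · intro v; simp
    · intro v; simp
    · intro j i s
      rw [Finset.sum_eq_single (fun _ => Sym.bit false)]
      · simp only [if_true, Function.Embedding.refl_apply]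
        by_cases hs : s = Sym.bit false
        · simp [hs]
        · rw [if_neg hs, if_neg (fun h => hs h.symm)]
      · intro a _ ha
        simp [ha]
      · intro h; exact absurd (Finset.mem_univ _) h
    · simp only [Fintype.card_unit, Nat.cast_one, mul_one, Finset.univ_unique, Finset.sum_singleton]
      rw [Finset.sum_eq_single (fun _ => Sym.bit false)]
      · have h2 : SatU n (fun _ => (Sym.bit false : Sym q)) := ⟨false, rfl⟩
        simp [fU, h2]
      · intro a _ ha
        simp [ha]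
      · intro h; exact absurd (Finset.mem_univ _) h
  have hlow : ∀ c : ℝ, c < 1 → theta (FF n q) c ≤ 7/20 := by
    intro c hc
    unfold theta
    refine le_trans (min_le_right _ _) ?_
    rw [hts]
    obtain ⟨I, h1, h2⟩ := hn n q le_rfl c hc
    exact le_trans (csInf_le (hbdd c) ⟨I, h1, rfl⟩) h2
  have hhigh : 9/20 ≤ theta (FF n q) 1 := by
    unfold theta
    refine le_min (by norm_num) ?_
    rw [hts]
    obtain ⟨I, hI⟩ := hone
    refine le_csInf ⟨val I, I, hI, rfl⟩ ?_
    rintro t ⟨J, hJ, rfl⟩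
    exact hex n q (le_of_eq hq.symm) J hJ
  have hmono : MonotoneOn (theta (FF n q)) (Set.Iio 1) := by
    intro a ha b hb hab
    unfold theta
    refine min_le_min hab ?_
    rw [hts, hts]
    obtain ⟨I, h1, _⟩ := hn n q le_rfl b hb
    refine csInf_le_csInf (hbdd a) ⟨val I, I, h1, rfl⟩ ?_
    rintro t ⟨J, hJ, rfl⟩
    exact ⟨J, le_trans hab hJ, rfl⟩
  have hlim : ∃ L : ℝ, Tendsto (theta (FF n q)) (nhdsWithin 1 (Set.Iio 1)) (nhds L) ∧
      L ≤ 7/20 := by
    refine ⟨sSup (theta (FF n q) '' Set.Iio 1), ?_, ?_⟩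
    · apply MonotoneOn.tendsto_nhdsLT hmono
      refine ⟨7/20, ?_⟩
      rintro t ⟨c, hc, rfl⟩
      exact hlow c hc
    · apply csSup_le
      · exact ⟨_, 0, by norm_num, rfl⟩
      · rintro t ⟨c, hc, rfl⟩
        exact hlow c hc
  obtain ⟨L, hL, hL2⟩ := hlim
  refine ⟨Sym q, inferInstance, inferInstance, (n+1)*10, FF n q, by omega, hlow, hhigh,
    ⟨L, hL, by linarith⟩, ?_⟩
  intro hcont
  have h1 : Tendsto (theta (FF n q)) (nhdsWithin 1 (Set.Iio 1)) (nhds (theta (FF n q) 1)) := by
    have h2 : nhdsWithin (1:ℝ) (Set.Iio 1) ≤ nhdsWithin 1 (Set.Icc 0 1) := by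
      rw [← nhdsWithin_Ioo_eq_nhdsLT (a := (0:ℝ)) (b := 1) (by norm_num)]
      exact nhdsWithin_mono _ Set.Ioo_subset_Icc_self
    exact hcont.tendsto.mono_left h2
  have h3 := tendsto_nhds_unique hL h1
  linarith

end Pool.Agent.H773.CS
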