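import Mathlib

/-!
Constraint satisfaction problems, the basic linear program and the LP approximability threshold
(problem MP_8ad0a3_lc).  General definitions.
-/

open Finset

namespace Pool.Agent.H773.CS

/-- An instance of `CSP(F)`, `F` a family of predicates `Sg^k → {0,1}`: a finite variable set `V`
and a nonempty sequence of `len` constraints; the `i`-th one is a `k`-tuple `e i` of distinct
variables together with a predicate `f i ∈ F`. -/
structure Inst {Sg : Type} {k : ℕ} (F : Set ((Fin k → Sg) → Bool)) where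
  V : Type
  fin : Fintype V
  len : ℕ
  pos : 0 < len
  e : Fin len → (Fin k ↪ V)
  f : Fin len → ((Fin k → Sg) → Bool)
  mem : ∀ i, f i ∈ F

variable {Sg : Type} [Fintype Sg] [DecidableEq Sg] {k : ℕ} {F : Set ((Fin k → Sg) → Bool)}

/-- The fraction of the constraints satisfied by the assignment `τ`. -/
noncomputable def valAt (I : Inst F) (τ : I.V → Sg) : ℝ :=
  (∑ i : Fin I.len, if I.f i (fun j => τ (I.e i j)) = true then (1 : ℝ) else 0) / I.len

/-- The value of an instance: the maximum over all assignments. -/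
noncomputable def val (I : Inst F) : ℝ := ⨆ τ : I.V → Sg, valAt I τ

/-- Feasible solutions of the basic LP. -/
structure LPFeasible (I : Inst F) (x : I.V → Sg → ℝ) (z : Fin I.len → (Fin k → Sg) → ℝ) :
    Prop where
  x_nonneg : ∀ v s, 0 ≤ x v s
  z_nonneg : ∀ i a, 0 ≤ z i a
  x_sum : ∀ v, ∑ s, x v s = 1
  z_sum : ∀ i, ∑ a, z i a = 1
  marg : ∀ i j s, (∑ a : Fin k → Sg, if a j = s then z i a else 0) = x (I.e i j) s

/-- The objective of the basic LP. -/
noncomputable def lpObj (I : Inst F) (z : Fin I.len → (Fin k → Sg) → ℝ) : ℝ :=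
  (∑ i : Fin I.len, ∑ a : Fin k → Sg, if I.f i a = true then z i a else 0) / I.len

/-- The optimum of the basic LP. -/
noncomputable def lpVal (I : Inst F) : ℝ :=
  sSup {t | ∃ x z, LPFeasible I x z ∧ t = lpObj I z}

open Classical in
/-- The function `ϑ*_F`. -/
noncomputable def thetaStar (F : Set ((Fin k → Sg) → Bool)) (c : ℝ) : ℝ :=
  if ∀ f ∈ F, ∀ a, f a = false then 1
  else sInf {t | ∃ I : Inst F, c ≤ lpVal I ∧ t = val I}

/-- The threshold function `ϑ_F(c) = min {c, ϑ*_F(c)}`. -/
noncomputable def theta (F : Set ((Fin k → Sg) → Bool)) (c : ℝ) : ℝ := min c (thetaStar F c)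

end Pool.Agent.H773.CS
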