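import Pool.Agent.H773.CS.Defs

/-!
The family of predicates witnessing the discontinuity, and the statements of the lemmas.
-/

open Finset

namespace Pool.Agent.H773.CS

/-- The alphabet: two bits, labels `A t`, labels `C c` and two symbols `bot`. -/
inductive Sym (q : ℕ) : Type
  | bit (b : Bool)
  | A (t : ZMod 2)
  | C (c : Fin q)
  | bot (b : Bool)
  deriving DecidableEq, Fintype

variable {q : ℕ}

/-- Numerical value of a bit (0 on all other symbols). -/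
def bv : Sym q → ℤ
  | .bit true => 1
  | _ => 0

def IsBit (s : Sym q) : Prop := ∃ b, s = .bit b

def IsLab (s : Sym q) : Prop := (∃ t, s = .A t) ∨ ∃ c, s = .C c

/-- Coarse label: `none` for the labels `A t`, `some c` for `C c`. -/
def coarse : Sym q → Option (Fin q)
  | .C c => some c
  | _ => none

/-- Roles in a block: 0 = y, 1 = x1, 2 = u1, 3 = x2, 4 = u2, 5 = z, 6 = z', 7 = r, 8 = r', 9 = p. -/
def BitOK (w : Bool × Bool) (s : Fin 10 → Sym q) : Prop :=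
  (∀ r, IsBit (s r)) ∧
  bv (s 2) = bv (s 1) + bv (s 0) - (if w.1 = true then 1 else 0) ∧
  bv (s 4) = bv (s 3) + bv (s 0) - (if w.2 = true then 1 else 0) ∧
  bv (s 9) = bv (s 5) + bv (s 6) ∧
  bv (s 9) = bv (s 7) + bv (s 8) - 1

def LabOK (s : Fin 10 → Sym q) : Prop :=
  (∀ r, IsLab (s r)) ∧
  (coarse (s 1) = coarse (s 0) ∨ coarse (s 1) = coarse (s 2) ∨ coarse (s 0) = coarse (s 2)) ∧
  (∀ c, ¬ (s 1 = .C c ∧ s 0 = .C c ∧ s 2 = .C c)) ∧
  (coarse (s 1) = coarse (s 3) → (coarse (s 2) = coarse (s 1) ↔ coarse (s 4) = coarse (s 3))) ∧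
  (∀ t5 t6 t7 t8 t9, s 5 = .A t5 → s 6 = .A t6 → s 7 = .A t7 → s 8 = .A t8 → s 9 = .A t9 →
     t9 = t5 + t6 ∧ t9 = t7 + t8 + 1)

/-- position of role `r` in block `i` (there are `n+1` blocks) -/
def ps {n : ℕ} (i : Fin (n+1)) (r : Fin 10) : Fin ((n+1)*10) := finProdFinEquiv (i, r)

def SatF (n : ℕ) (j : Bool) (w : Fin (n+1) → Bool × Bool) (a : Fin ((n+1)*10) → Sym q) : Prop :=
  (∀ i, BitOK (w i) (fun r => a (ps i r))) ∨
  (∀ i, LabOK (fun r => a (ps i r))) ∨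
  (∀ i r, a (ps i r) = .bot j)

def SatU (n : ℕ) (a : Fin ((n+1)*10) → Sym q) : Prop := IsBit (a (ps (n := n) 0 0))

open Classical in
noncomputable def fF (n q : ℕ) (j : Bool) (w : Fin (n+1) → Bool × Bool) :
    (Fin ((n+1)*10) → Sym q) → Bool := fun a => decide (SatF n j w a)

open Classical in
noncomputable def fU (n q : ℕ) : (Fin ((n+1)*10) → Sym q) → Bool := fun a => decide (SatU n a)

/-- The family of predicates. -/
def FF (n q : ℕ) : Set ((Fin ((n+1)*10) → Sym q) → Bool) :=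
  {f | (∃ j w, f = fF n q j w) ∨ f = fU n q}

/-! ### Exact side -/

/-- The LP optimum is attained and, if it is 1, supported on satisfying assignments. -/
def S_supp : Prop := ∀ {Sg : Type} [Fintype Sg] [DecidableEq Sg] {k : ℕ}
  {F : Set ((Fin k → Sg) → Bool)} (I : Inst F), 1 ≤ lpVal I →
  ∃ x z, LPFeasible I x z ∧ ∀ i a, z i a ≠ 0 → I.f i a = true

def S_pi : Prop := ∃ g : ℝ →ₗ[ℚ] ℚ, g 1 = 1

/-- the level and the parity of a rational number -/
def lev (a : ℚ) : ℕ := padicValNat 2 a.den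
def par (a : ℚ) : ZMod 2 := (a.num : ZMod 2)

def S_lev : Prop :=
  (∀ a b : ℚ, lev a < lev b → lev (a + b) = lev b) ∧
  (∀ a b : ℚ, lev a = lev b → 0 < lev a → lev (a + b) < lev a) ∧
  (∀ a b : ℚ, lev a = 0 → lev b = 0 → lev (a + b) = 0 ∧ par (a + b) = par a + par b) ∧
  (∀ (a : ℚ), lev (a - 1) = lev a) ∧ (∀ a : ℚ, lev a = 0 → par (a - 1) = par a + 1)

/-- the label of a rational number, given a colouring of the levels -/
def labl (col : ℕ → Fin q) (a : ℚ) : Sym q := if lev a = 0 then .A (par a) else .C (col (lev a))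

def S_lab : Prop := ∀ (q : ℕ) (a : Fin 10 → ℚ) (w : Bool × Bool) (col : ℕ → Fin q),
  (∀ r s, col (lev (a r)) = col (lev (a s)) → lev (a r) = lev (a s)) →
  a 2 = a 1 + a 0 - (if w.1 = true then 1 else 0) →
  a 4 = a 3 + a 0 - (if w.2 = true then 1 else 0) →
  a 9 = a 5 + a 6 → a 9 = a 7 + a 8 - 1 →
  LabOK (fun r => labl col (a r))

/-- most colourings are injective on a small set -/
def S_col : Prop := ∀ (N q K : ℕ) (T : Finset (Fin N)), T.card ≤ K → 0 < q →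
  (1 - (K : ℝ)^2 / q) * (q : ℝ)^N ≤
    ((univ.filter (fun c : Fin N → Fin q => ∀ i ∈ T, ∀ j ∈ T, c i = c j → i = j)).card : ℝ)

def S_exact : Prop := ∀ (n q : ℕ), 10 * (10 * (n+1))^2 ≤ q → ∀ I : Inst (FF n q),
  1 ≤ lpVal I → 9/20 ≤ val I

/-! ### Near side -/

/-- floor of p/2 -/
def zf {P : ℕ} (p : ZMod P) : ZMod P := ((p.val / 2 : ℕ) : ZMod P)
/-- floor of (p+P)/2 -/
def rf {P : ℕ} (p : ZMod P) : ZMod P := (((p.val + P) / 2 : ℕ) : ZMod P)

/-- sample space of one block: `((y,cy),(x1,cx1,cu1),(x2,cx2,cu2),(p,cp))` -/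
abbrev Blk (P : ℕ) : Type :=
  (ZMod P × Bool) × (ZMod P × Bool × Bool) × (ZMod P × Bool × Bool) × (ZMod P × Bool)

/-- the ten variables of a block -/
def bvar {P : ℕ} (b : Blk P) : Fin 10 → ZMod P × Bool :=
  ![b.1, (b.2.1.1, b.2.1.2.1), (b.2.1.1 + b.1.1, b.2.1.2.2),
    (b.2.2.1.1, b.2.2.1.2.1), (b.2.2.1.1 + b.1.1, b.2.2.1.2.2),
    (zf b.2.2.2.1, false), (zf b.2.2.2.1, true),
    (rf b.2.2.2.1, false), (rf b.2.2.2.1, true), b.2.2.2]

/-- the two carries -/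
def dig {P : ℕ} (b : Blk P) : Bool × Bool :=
  (decide (P ≤ b.2.1.1.val + b.1.1.val), decide (P ≤ b.2.2.1.1.val + b.1.1.val))

/-- doubling lemma -/
def S_D : Prop := ∀ (P : ℕ) [NeZero P], P % 2 = 1 → ∀ g : ZMod P × Bool → ZMod 2,
  ((univ.filter (fun v : ZMod P × Bool => g v = g (zf v.1, false) + g (zf v.1, true) ∧
     g v = g (rf v.1, false) + g (rf v.1, true) + 1)).card : ℝ) ≤ 9/10 * (2 * P)

/-- number of pairs `(x,c),(x+y,c')` in `N` -/
def HH {P : ℕ} [NeZero P] (N : Finset (ZMod P × Bool)) (y : ZMod P) : ℕ :=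
  (univ.filter (fun t : ZMod P × Bool × Bool => (t.1, t.2.1) ∈ N ∧ (t.1 + y, t.2.2) ∈ N)).card

/-- basic properties of `HH` -/
def S_H : Prop := ∀ (P : ℕ) [NeZero P] (N : Finset (ZMod P × Bool)),
  (∀ y, HH N y ≤ 2 * N.card) ∧ (∑ y : ZMod P, HH N y = N.card ^ 2) ∧
  (∀ y y', HH N y + HH N y' ≤ HH N (y + y') + 2 * N.card)

/-- stability: a set `N` of vertices with few violations of (c) is almost everything -/
def S_cls : Prop := ∀ (P : ℕ) [Fact P.Prime], 10000 ≤ P → ∀ (N : Finset (ZMod P × Bool)) (ep : ℝ),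
  0 ≤ ep → ep ≤ 1/5000 → (3/5 : ℝ) * P ≤ N.card →
  ∑ y : ZMod P, (HH N y : ℝ) * (2 * N.card - HH N y) ≤ 8 * ep * (P:ℝ)^3 →
  2 * (P:ℝ) - N.card ≤ 45 * ep * P

/-- bits: per-block bound -/
def S_bit : Prop := ∀ (P q : ℕ) [NeZero P], P % 2 = 1 → ∀ τ : ZMod P × Bool → Sym q,
  (Set.ncard {b : Blk P | BitOK (dig b) (fun r => τ (bvar b r))} : ℝ) ≤ 9/10 * (64 * (P:ℝ)^4)

/-- labels: bound by the doubling lemma when most vertices have label A -/
def S_labA : Prop := ∀ (P q : ℕ) [NeZero P], P % 2 = 1 → ∀ τ : ZMod P × Bool → Sym q,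
  (Set.ncard {b : Blk P | LabOK (fun r => τ (bvar b r))} : ℝ) ≤ 9/10 * (64 * (P:ℝ)^4) +
    17 * (32 * (P:ℝ)^3) * (Set.ncard {v : ZMod P × Bool | ¬ ∃ t, τ v = .A t} : ℝ)

/-- the vertices whose label has coarse class `d` -/
noncomputable def cls {P : ℕ} [NeZero P] (τ : ZMod P × Bool → Sym q) (d : Option (Fin q)) :
    Finset (ZMod P × Bool) := by
  classical exact univ.filter (fun v => IsLab (τ v) ∧ coarse (τ v) = d)

/-- from (a): some coarse class is large -/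
def S_three : Prop := ∀ (P q : ℕ) [NeZero P], ∀ τ : ZMod P × Bool → Sym q, ∃ d : Option (Fin q),
  (Set.ncard {b : Blk P | LabOK (fun r => τ (bvar b r))} : ℝ) ≤
    3 * (32 * (P:ℝ)^3) * ((cls τ d).card : ℝ)

/-- from (c) -/
def S_c : Prop := ∀ (P q : ℕ) [NeZero P], ∀ (τ : ZMod P × Bool → Sym q) (d : Option (Fin q)),
  8 * (P:ℝ) * ∑ y : ZMod P, (HH (cls τ d) y : ℝ) * (2 * (cls τ d).card - HH (cls τ d) y) ≤
   64 * (P:ℝ)^4 - (Set.ncard {b : Blk P | LabOK (fun r => τ (bvar b r))} : ℝ)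

/-- from (b) -/
def S_b : Prop := ∀ (P q : ℕ) [NeZero P], ∀ (τ : ZMod P × Bool → Sym q) (c : Fin q),
  (Set.ncard {b : Blk P | LabOK (fun r => τ (bvar b r))} : ℝ) ≤
    3 * (32 * (P:ℝ)^3) * (2 * (P:ℝ) - ((cls τ (some c)).card : ℝ))

/-- labels: per-block bound -/
def S_lb : Prop := ∀ (P q : ℕ) [Fact P.Prime], 10000 ≤ P → ∀ τ : ZMod P × Bool → Sym q,
  (Set.ncard {b : Blk P | LabOK (fun r => τ (bvar b r))} : ℝ) ≤ (1 - 1/5000) * (64 * (P:ℝ)^4)

/-- all variables of a tuple of blocks -/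
def tvar {P n : ℕ} (b : Fin (n+1) → Blk P) (k : Fin ((n+1)*10)) : ZMod P × Bool :=
  bvar (b (finProdFinEquiv.symm k).1) (finProdFinEquiv.symm k).2

/-- few tuples have repeated variables -/
def S_inj : Prop := ∀ (P n : ℕ) [NeZero P], P % 2 = 1 → 3 ≤ P →
  (Set.ncard {b : Fin (n+1) → Blk P | ¬ Function.Injective (tvar b)} : ℝ) * P ≤
    2 * (10 * (n+1))^2 * (64 * (P:ℝ)^4)^(n+1)

/-- the fractional solution on one tuple of blocks: a distribution on bit assignments with the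
right marginals, satisfying all blocks with probability at least `1-(n+1)/P` -/
def S_lp : Prop := ∀ (P q n : ℕ) [NeZero P], P % 2 = 1 → 3 ≤ P → ∀ b : Fin (n+1) → Blk P,
  ∃ β : Fin P → Fin ((n+1)*10) → Bool,
    (∀ k, (univ.filter (fun θ => β θ k = true)).card = (tvar b k).1.val) ∧
    Set.ncard {θ | ¬ ∀ i, BitOK (q := q) (dig (b i)) (fun r => .bit (β θ (ps i r)))} ≤ n + 1

/-- building an instance from constraints indexed by a finite type -/
def S_mk : Prop := ∀ {Sg : Type} [Fintype Sg] [DecidableEq Sg] [Nonempty Sg] {k : ℕ}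
  {F : Set ((Fin k → Sg) → Bool)} (V J : Type) [Fintype V] [Fintype J] [Nonempty J]
  (e : J → (Fin k ↪ V)) (f : J → ((Fin k → Sg) → Bool)), (∀ j, f j ∈ F) →
  ∃ I : Inst F,
    (∀ s : ℝ, (∀ τ : V → Sg, (∑ j : J, if f j (fun i => τ (e j i)) = true then (1:ℝ) else 0) ≤
      s * Fintype.card J) → val I ≤ s) ∧
    (∀ (t : ℝ) (x : V → Sg → ℝ) (z : J → (Fin k → Sg) → ℝ),
      (∀ v s, 0 ≤ x v s) → (∀ j a, 0 ≤ z j a) → (∀ v, ∑ s, x v s = 1) → (∀ j, ∑ a, z j a = 1) →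
      (∀ j i s, (∑ a : Fin k → Sg, if a i = s then z j a else 0) = x (e j i) s) →
      t * Fintype.card J ≤ ∑ j : J, ∑ a : Fin k → Sg, (if f j a = true then z j a else 0) →
      t ≤ lpVal I)

open Classical in
/-- pointwise bound for the three constraints on a tuple -/
def S_pt : Prop := ∀ (n q : ℕ) (w : Fin (n+1) → Bool × Bool) (a : Fin ((n+1)*10) → Sym q),
  (if fF n q false w a = true then (1:ℝ) else 0) + (if fF n q true w a = true then (1:ℝ) else 0) +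
    (if fU n q a = true then (1:ℝ) else 0) ≤
  1 + (if ∀ i, BitOK (w i) (fun r => a (ps i r)) then (2:ℝ) else 0) +
    (if ∀ i, LabOK (fun r => a (ps i r)) then (2:ℝ) else 0)

/-- the index type of the constraints of the near instance -/
abbrev JJ (P n : ℕ) : Type := {b : Fin (n+1) → Blk P // Function.Injective (tvar b)} × Fin 3

def eJ {P n : ℕ} (j : JJ P n) : Fin ((n+1)*10) ↪ ZMod P × Bool := ⟨tvar j.1.1, j.1.2⟩

noncomputable def fJ {P n : ℕ} (q : ℕ) (j : JJ P n) : (Fin ((n+1)*10) → Sym q) → Bool :=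
  if j.2 = 0 then fF n q false (fun i => dig (j.1.1 i))
  else if j.2 = 1 then fF n q true (fun i => dig (j.1.1 i))
  else fU n q

open Classical in
/-- fractional solution of the near instance -/
def S_nlp : Prop := ∀ (P q n : ℕ) [NeZero P], P % 2 = 1 → 3 ≤ P →
  ∃ (x : ZMod P × Bool → Sym q → ℝ) (z : JJ P n → (Fin ((n+1)*10) → Sym q) → ℝ),
    (∀ v s, 0 ≤ x v s) ∧ (∀ j a, 0 ≤ z j a) ∧ (∀ v, ∑ s, x v s = 1) ∧ (∀ j, ∑ a, z j a = 1) ∧
    (∀ j i s, (∑ a : Fin ((n+1)*10) → Sym q, if a i = s then z j a else 0) = x (eJ j i) s) ∧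
    (1 - ((n:ℝ)+1) / P) * Fintype.card (JJ P n) ≤
      ∑ j : JJ P n, ∑ a, (if fJ q j a = true then z j a else 0)

open Classical in
/-- integral solutions of the near instance -/
def S_nval : Prop := ∃ n₀ : ℕ, ∀ n : ℕ, n₀ ≤ n → ∃ P₀ : ℕ, ∀ (P q : ℕ) [Fact P.Prime], P₀ ≤ P →
  0 < Fintype.card (JJ P n) ∧
  ∀ τ : ZMod P × Bool → Sym q,
    (∑ j : JJ P n, if fJ q j (fun i => τ (eJ j i)) = true then (1:ℝ) else 0) ≤
      7/20 * Fintype.card (JJ P n)

def S_near : Prop := ∃ n₀ : ℕ, ∀ n q : ℕ, n₀ ≤ n → ∀ c : ℝ, c < 1 →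
  ∃ I : Inst (FF n q), c ≤ lpVal I ∧ val I ≤ 7/20

def S_final : Prop := ∃ (Sg : Type) (_ : Fintype Sg) (_ : DecidableEq Sg) (k : ℕ)
  (F : Set ((Fin k → Sg) → Bool)), 1 ≤ k ∧ (∀ c : ℝ, c < 1 → theta F c ≤ 7/20) ∧
    9/20 ≤ theta F 1 ∧
    (∃ L : ℝ, Filter.Tendsto (theta F) (nhdsWithin 1 (Set.Iio 1)) (nhds L) ∧ L < theta F 1) ∧
    ¬ ContinuousWithinAt (theta F) (Set.Icc 0 1) 1

end Pool.Agent.H773.CS
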